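import Pool.Agent.AcyG.OTop

/-! # The acyclic chromatic number of graphs of bounded maximum degree

Write `a(G)` for the acyclic chromatic number and `f(d)` for the maximum of `a(G)` over the graphs
of maximum degree `d`.  Alon, McDiarmid and Reed (1991) proved
`c₁ d^(4/3) / (log d)^(1/3) < f(d) < c₂ d^(4/3)`.

Here the upper bound is improved to `f(d) = o(d^(4/3))`, for all graphs. The definitions are in
`Pool/Agent/AcyK/Classes.lean` and `Pool/Agent/AcyG/TopG.lean`. -/

set_option autoImplicit false

namespace Pool.Agent.Results.MP_af9dfb_co.AllGraphs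

open Filter Asymptotics
open Pool.Agent.AcyK.Classes
open Pool.Agent.AcyG

/-- **All graphs.** The maximum `f(d)` of `a(G)` over the finite graphs of maximum degree `d` is
attained, and `f(d) = o(d^(4/3))`. -/
theorem result : (∀ d, IsGreatest (values allGraphs d) (fmax allGraphs d)) ∧
    (fun d : ℕ => (fmax allGraphs d : ℝ)) =o[atTop] fun d : ℕ => (d : ℝ) ^ ((4 : ℝ) / 3) :=
  ⟨isGreatest_all, isLittleO_all engine⟩

end Pool.Agent.Results.MP_af9dfb_co.AllGraphs
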