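import Pool.Agent.AcyK.Classes

/-! # The acyclic chromatic number of graphs of bounded clique number

Write `a(G)` for the acyclic chromatic number.  The known upper bound for graphs of maximum degree
`d` is `a(G) = O(d^(4/3))` (Alon, McDiarmid and Reed 1991).  Here
`a(G) ≤ C ((1 + (t - 3) log log d) / log d)^(1/3) d^(4/3)` is proved, uniformly in `t ≥ 3`, for the
graphs without induced complete multipartite graph `K_{2,...,2}` with `t` classes of size two, in
particular for the graphs of clique number less than `t`. The definitions of acyclic colourings and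
of the acyclic chromatic number are in `Pool/Agent/AcyK/Classes.lean`. -/

set_option autoImplicit false

namespace Pool.Agent.Results.MP_af9dfb_co.BoundedCliqueNumber

open Filter
open Pool.Agent.AcyK.Classes

/-- **Graphs of bounded clique number.** For all large `d` and all `t ≥ 3`, every graph of maximum
degree at most `d` whose clique number is less than `t`, or which only has no induced
`K_{2,...,2}` with `t` classes, satisfies
`a(G) ≤ C ((1 + (t - 3) log log d) / log d)^(1/3) d^(4/3)`. -/
theorem result :
    ∃ C : ℝ, ∀ᶠ d : ℕ in atTop, ∀ t : ℕ, 3 ≤ t →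
      ∀ (V : Type) [Fintype V] (G : SimpleGraph V) [DecidableRel G.Adj], G.maxDegree ≤ d →
      (G.CliqueFree t ∨
        ¬ (SimpleGraph.completeMultipartiteGraph fun _ : Fin t => Fin 2).IsIndContained G) →
      (acyclicNumber G : ℝ) ≤
        C * ((1 + ((t : ℝ) - 3) * Real.log (Real.log d)) / Real.log d) ^ ((1 : ℝ) / 3) *
          (d : ℝ) ^ ((4 : ℝ) / 3) :=
  upper_cocktail

end Pool.Agent.Results.MP_af9dfb_co.BoundedCliqueNumber
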