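import Pool.Agent.AcyK.Classes

/-! # The acyclic chromatic number of graphs with colourable common neighbourhoods

Write `a(G)` for the acyclic chromatic number.  The known upper bound for graphs of maximum degree
`d` is `a(G) = O(d^(4/3))` (Alon, McDiarmid and Reed 1991).  Here
`a(G) ≤ C ((1 + log r) / log d)^(1/3) d^(4/3)` is proved, uniformly in `r ≥ 1`, for the graphs of
chromatic number at most `r`, and more generally for the graphs in which the common neighbourhood of
any two non-adjacent vertices induces an `r`-colourable graph. The definitions of acyclic colourings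
and of the acyclic chromatic number are in `Pool/Agent/AcyK/Classes.lean`. -/

set_option autoImplicit false

namespace Pool.Agent.Results.MP_af9dfb_co.LocallyColourable

open Filter
open Pool.Agent.AcyK.Classes

/-- **Graphs with colourable common neighbourhoods.** For all large `d` and all `r ≥ 1`, every graph
of maximum degree at most `d` which is `r`-colourable, or in which only the common neighbourhood of
any two distinct non-adjacent vertices induces an `r`-colourable graph, satisfies
`a(G) ≤ C ((1 + log r) / log d)^(1/3) d^(4/3)`. -/
theorem result : ∃ C : ℝ, ∀ᶠ d : ℕ in atTop, ∀ r : ℕ, 1 ≤ r →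
    ∀ (V : Type) [Fintype V] (G : SimpleGraph V) [DecidableRel G.Adj], G.maxDegree ≤ d →
    (G.Colorable r ∨
      ∀ z z', z ≠ z' → ¬ G.Adj z z' → (G.induce (G.commonNeighbors z z')).Colorable r) →
    (acyclicNumber G : ℝ) ≤
      C * ((1 + Real.log r) / Real.log d) ^ ((1 : ℝ) / 3) * (d : ℝ) ^ ((4 : ℝ) / 3) :=
  upper_loc

end Pool.Agent.Results.MP_af9dfb_co.LocallyColourable
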