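import Pool.Agent.AcyK.Classes

/-! # The sharp order of the acyclic chromatic number for classes of graphs

Write `a(G)` for the acyclic chromatic number and `f(d)` for the maximum of `a(G)` over the graphs
of maximum degree `d`.  Alon, McDiarmid and Reed (1991) proved
`c₁ d^(4/3) / (log d)^(1/3) < f(d) < c₂ d^(4/3)`.

For a class `P` of graphs let `f_P(d)` be the maximum over the graphs of `P`.  Here
`f_P(d) = Θ(d^(4/3) / (log d)^(1/3))` is proved for every class `P` that contains the bipartite
graphs and all of whose members have no induced octahedron `K_{2,2,2}` or have `r`-colourable common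
neighbourhoods of non-adjacent vertices (`r` fixed), for instance for the triangle-free graphs and
for the graphs of chromatic number at most `r`. The definitions are in
`Pool/Agent/AcyK/Classes.lean`. -/

set_option autoImplicit false

namespace Pool.Agent.Results.MP_af9dfb_co.SharpClasses

open Filter Asymptotics
open Pool.Agent.AcyK.Classes

/-- **The sharp order.** For every class `P` of graphs that contains the finite bipartite graphs the
maximum `f_P(d)` is attained. If moreover for some `r` every finite graph of `P` contains no induced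
octahedron or has `r`-colourable common neighbourhoods of non-adjacent vertices, then
`f_P(d) = Θ(d^(4/3) / (log d)^(1/3))`. In particular this holds for the bipartite graphs, for the
triangle-free graphs, for the graphs without induced octahedron, and for the graphs of chromatic
number at most `r`, `r ≥ 2`. -/
theorem result :
    (∀ P : GraphClass, (∀ (V : Type) [Finite V] (G : SimpleGraph V), bipartite V G → P V G) →
      (∀ d, IsGreatest (values P d) (fmax P d)) ∧
      ((∃ r, ∀ (V : Type) [Finite V] (G : SimpleGraph V), P V G →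
          cocktailFree 3 V G ∨ locallyColourable r V G) →
        (fun d : ℕ => (fmax P d : ℝ)) =Θ[atTop]
          fun d : ℕ => (d : ℝ) ^ ((4 : ℝ) / 3) / Real.log d ^ ((1 : ℝ) / 3))) ∧
    (fun d : ℕ => (fmax bipartite d : ℝ)) =Θ[atTop]
      (fun d : ℕ => (d : ℝ) ^ ((4 : ℝ) / 3) / Real.log d ^ ((1 : ℝ) / 3)) ∧
    (fun d : ℕ => (fmax (cliqueFree 3) d : ℝ)) =Θ[atTop]
      (fun d : ℕ => (d : ℝ) ^ ((4 : ℝ) / 3) / Real.log d ^ ((1 : ℝ) / 3)) ∧
    (fun d : ℕ => (fmax (cocktailFree 3) d : ℝ)) =Θ[atTop]
      (fun d : ℕ => (d : ℝ) ^ ((4 : ℝ) / 3) / Real.log d ^ ((1 : ℝ) / 3)) ∧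
    ∀ r : ℕ, 2 ≤ r → (fun d : ℕ => (fmax (colourable r) d : ℝ)) =Θ[atTop]
      (fun d : ℕ => (d : ℝ) ^ ((4 : ℝ) / 3) / Real.log d ^ ((1 : ℝ) / 3)) := by
  refine ⟨fun P hP => ⟨isGreatest hP, sharp hP⟩, ?_, ?_, ?_, ?_⟩
  · exact sharp (fun V _ G h => h) ⟨0, fun V _ G h => Or.inl (bipartite_cocktailFree V G h)⟩
  · exact sharp (fun V _ G h => bipartite_cliqueFree V G h)
      ⟨0, fun V _ G h => Or.inl (cliqueFree_cocktailFree 3 V G h)⟩
  · exact sharp (fun V _ G h => bipartite_cocktailFree V G h) ⟨0, fun V _ G h => Or.inl h⟩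
  · exact fun r hr => sharp (fun V _ G h => bipartite_colourable hr V G h)
      ⟨r, fun V _ G h => Or.inr (colourable_locallyColourable r V G h)⟩

end Pool.Agent.Results.MP_af9dfb_co.SharpClasses
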